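import Pool.Agent.U29.DZ.Stm

/-!
Project DZ, package ANAx: exponential decay for position dependent weights
(adapted from `Pool/Agent/U111/RP/ANA.lean`).
-/

set_option autoImplicit false

namespace Pool.Agent.U864.DZ

open Finset MeasureTheory Filter Pool.Agent.U762.RP Pool.Agent.U29.DZ

section
variable {d : ℕ} {m r : ℤ → ℤ} {w : ℤ → ℤ → ℝ} {B : ℕ} {M Y : ℝ}

theorem Q_mono (hw : ∀ x u, 0 ≤ w x u) {F G : ℤ → ℝ} (h : ∀ x, F x ≤ G x) (x : ℤ) :
    Qx d m r w B M Y F x ≤ Qx d m r w B M Y G x := by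
  unfold Qx
  split_ifs
  · exact Finset.sum_le_sum fun u _ => mul_le_mul_of_nonneg_left (h _) (hw x u)
  · exact le_rfl

theorem Q_smul (c : ℝ) (F : ℤ → ℝ) (x : ℤ) :
    Qx d m r w B M Y (fun y => c * F y) x = c * Qx d m r w B M Y F x := by
  unfold Qx
  split_ifs
  · rw [Finset.mul_sum]
    exact Finset.sum_congr rfl fun u _ => by ring
  · rw [mul_zero]

theorem Qi_mono (hw : ∀ x u, 0 ≤ w x u) (k : ℕ) : ∀ {F G : ℤ → ℝ}, (∀ x, F x ≤ G x) → ∀ x : ℤ,
    (Qx d m r w B M Y)^[k] F x ≤ (Qx d m r w B M Y)^[k] G x := by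
  induction k with
  | zero => exact fun h x => h x
  | succ k ih =>
    intro F G h x
    rw [Function.iterate_succ_apply, Function.iterate_succ_apply]
    exact ih (fun y => Q_mono hw h y) x

theorem Qi_smul (c : ℝ) (k : ℕ) : ∀ (F : ℤ → ℝ) (x : ℤ),
    (Qx d m r w B M Y)^[k] (fun y => c * F y) x = c * (Qx d m r w B M Y)^[k] F x := by
  induction k with
  | zero => exact fun F x => rfl
  | succ k ih =>
    intro F x
    rw [Function.iterate_succ_apply, Function.iterate_succ_apply]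
    have e : Qx d m r w B M Y (fun y => c * F y) = fun y => c * Qx d m r w B M Y F y :=
      funext fun y => Q_smul c F y
    rw [e]
    exact ih _ x

theorem Qi_low (k : ℕ) (F : ℤ → ℝ) (x : ℤ) (hx : |(x : ℝ)| < M) :
    (Qx d m r w B M Y)^[k + 1] F x = 0 := by
  rw [Function.iterate_succ_apply']
  unfold Qx
  rw [if_neg]
  rintro ⟨h, _⟩
  exact absurd hx (not_lt.2 h)

end

theorem g_nonneg {ε R ρ : ℝ} (hε : 0 < ε) (hε1 : ε < 1) (hR : 0 < R) (hρ : 0 ≤ ρ) (k : ℕ) :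
    0 ≤ g ε R ρ k := by
  induction k with
  | zero => exact zero_le_one
  | succ k ih =>
    show 0 ≤ R * (ε * ρ ^ k + (1 - ε) * g ε R ρ k)
    have h1 : 0 ≤ 1 - ε := by linarith
    positivity

theorem t_ANAx : S_EXP → S_REC → S_WCx → S_ANAx := by
  intro hEXP hREC hWC d m r hrel hprod ε hε hε1
  obtain ⟨θ, ζ, hθ0, hθ1, hζ, hsum, hfac⟩ := hEXP d m hrel.two_le hrel.pos hprod ε hε hε1
  have hd : 0 < d := by have := hrel.two_le; omega
  have hd' : (0 : ℝ) < d := by exact_mod_cast hd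
  have hfpos : ∀ j ∈ range d, 0 < fac d m ζ j := by
    intro j hj
    unfold fac
    have h1 : 0 < m (j : ℤ) := hrel.pos j (by positivity) (by exact_mod_cast mem_range.1 hj)
    have h2 : (0 : ℝ) < m (j : ℤ) := by exact_mod_cast h1
    positivity
  obtain ⟨j0, hj0, hmax⟩ := Finset.exists_max_image (range d) (fun j => fac d m ζ j ^ θ)
    ⟨0, mem_range.2 hd⟩
  obtain ⟨R, hR⟩ : ∃ R : ℝ, R = max 1 (fac d m ζ j0 ^ θ) := ⟨_, rfl⟩
  have hR1' : 1 ≤ R := by rw [hR]; exact le_max_left _ _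
  have hRpos : 0 < R := by linarith
  have hRmax : ∀ j ∈ range d, fac d m ζ j ^ θ ≤ R := by
    intro j hj
    rw [hR]
    exact (hmax j hj).trans (le_max_right _ _)
  have hR1 : (1 - ε) * R < 1 := by
    rw [hR, mul_max_of_nonneg _ _ (by linarith : (0 : ℝ) ≤ 1 - ε)]
    exact max_lt (by linarith) (hfac j0 hj0)
  obtain ⟨ρ, hρ⟩ : ∃ ρ : ℝ, ρ = (∑ j ∈ range d, fac d m ζ j ^ θ) / d := ⟨_, rfl⟩
  have hρ0 : 0 ≤ ρ := by
    rw [hρ]
    exact div_nonneg (Finset.sum_nonneg fun j hj =>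
      (Real.rpow_pos_of_pos (hfpos j hj) θ).le) hd'.le
  have hρ1 : ρ < 1 := by rw [hρ, div_lt_one hd']; exact hsum
  have hg0 := g_nonneg hε hε1 hRpos hρ0
  have hlim := hREC ε R ρ hε hε1 hRpos hρ0 hρ1 hR1
  have hev : ∀ᶠ k in atTop, g ε R ρ k ≤ 1 / 4 :=
    (hlim.eventually (gt_mem_nhds (by norm_num : (0 : ℝ) < 1 / 4))).mono fun _ h => h.le
  obtain ⟨K, hK, hK1⟩ := (hev.and (eventually_ge_atTop 1)).exists
  have hKpos : (0 : ℝ) < K := by exact_mod_cast hK1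
  obtain ⟨η, hη⟩ : ∃ η : ℝ, η = 1 / (4 * (K : ℝ) ^ 2 * R ^ K) := ⟨_, rfl⟩
  have hη0 : 0 < η := by rw [hη]; positivity
  have hηK : η * (K : ℝ) ^ 2 * R ^ K = 1 / 4 := by
    rw [hη]
    have h1 : (K : ℝ) ^ 2 ≠ 0 := by positivity
    have h2 : R ^ K ≠ 0 := by positivity
    field_simp
  refine ⟨K, η, hη0, fun B hB => ?_⟩
  obtain ⟨M₀, hM1, hM⟩ := hWC d m r hrel θ ζ hθ0 hθ1 hζ B
  -- the bounds of WCx
  obtain ⟨b, hb⟩ : ∃ b : ℕ → ℝ, b = fun k => g ε R ρ k + η * (k : ℝ) ^ 2 * R ^ k := ⟨_, rfl⟩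
  have hb0 : ∀ k, 0 ≤ b k := by
    intro k
    rw [hb]
    have := hg0 k
    positivity
  obtain ⟨C0, hC0⟩ : ∃ C0 : ℝ, C0 = 1 + ∑ s ∈ range (K + 1), b s := ⟨_, rfl⟩
  have hC0pos : 0 < C0 := by
    have : 0 ≤ ∑ s ∈ range (K + 1), b s := Finset.sum_nonneg fun s _ => hb0 s
    linarith
  have hC0b : ∀ s, s < K + 1 → b s ≤ C0 := by
    intro s hs
    have := Finset.single_le_sum (f := b) (fun s _ => hb0 s) (mem_range.2 hs)
    linarith
  obtain ⟨lam, hlam⟩ : ∃ lam : ℝ, lam = (1 / 2 : ℝ) ^ ((1 : ℝ) / K) := ⟨_, rfl⟩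
  have hlam0 : 0 < lam := by rw [hlam]; exact Real.rpow_pos_of_pos (by norm_num) _
  have hlam1 : lam < 1 := by rw [hlam]; exact Real.rpow_lt_one (by norm_num) (by norm_num) (by positivity)
  have hlamK : lam ^ K = 1 / 2 := by
    rw [hlam, ← Real.rpow_natCast, ← Real.rpow_mul (by norm_num), one_div_mul_cancel hKpos.ne',
      Real.rpow_one]
  refine ⟨M₀, 2 * C0, lam, θ, hM1, by positivity, hlam0, hlam1, hθ0, hθ1,
    fun M hMM Y w hw hmass L x => ?_⟩
  have hw0 := hw.nonneg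
  have hwc : ∀ k : ℕ, k ≤ K + 1 → ∀ x : ℤ, (Qx d m r w B M Y)^[k] (V M θ) x ≤
      b k * |(x : ℝ)| ^ θ := by
    intro k hk x
    rw [hb, hρ]
    exact hM M hMM Y η R ε K w hη0.le hw hR1' hε hε1 hB hRmax hmass k hk x
  -- one block
  have hblock : ∀ y, (Qx d m r w B M Y)^[K] (V M θ) y ≤ 1 / 2 * V M θ y := by
    intro y
    by_cases hy : |(y : ℝ)| < M
    · obtain ⟨K', hK'⟩ : ∃ K', K = K' + 1 := ⟨K - 1, by omega⟩
      rw [hK', Qi_low K' _ y hy]
      unfold V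
      rw [if_pos hy, mul_zero]
    · have h1 := hwc K (by omega) y
      have h2 : V M θ y = |(y : ℝ)| ^ θ := by unfold V; rw [if_neg hy]
      rw [h2]
      refine h1.trans ?_
      refine mul_le_mul_of_nonneg_right ?_ (Real.rpow_nonneg (abs_nonneg _) _)
      rw [hb]
      change g ε R ρ K + η * (K : ℝ) ^ 2 * R ^ K ≤ 1 / 2
      rw [hηK]
      linarith
  have hblocks : ∀ n : ℕ, ∀ y, (Qx d m r w B M Y)^[K * n] (V M θ) y ≤ (1 / 2) ^ n * V M θ y := by
    intro n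
    induction n with
    | zero => intro y; simp
    | succ n ih =>
      intro y
      rw [Nat.mul_succ, Function.iterate_add_apply]
      calc (Qx d m r w B M Y)^[K * n] ((Qx d m r w B M Y)^[K] (V M θ)) y
          ≤ (Qx d m r w B M Y)^[K * n] (fun y => 1 / 2 * V M θ y) y := Qi_mono hw0 _ hblock y
        _ = 1 / 2 * (Qx d m r w B M Y)^[K * n] (V M θ) y := Qi_smul _ _ _ _
        _ ≤ 1 / 2 * ((1 / 2) ^ n * V M θ y) := by
            exact mul_le_mul_of_nonneg_left (ih y) (by norm_num)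
        _ = _ := by ring
  -- points below the window
  by_cases hx : |(x : ℝ)| < M
  · have hV : V M θ x = 0 := by unfold V; rw [if_pos hx]
    rw [hV, mul_zero]
    cases L with
    | zero => rw [Function.iterate_zero_apply, hV]
    | succ L => rw [Qi_low L _ x hx]
  have hV : V M θ x = |(x : ℝ)| ^ θ := by unfold V; rw [if_neg hx]
  -- division with remainder
  obtain ⟨n, s, hs, rfl⟩ : ∃ n s, s < K ∧ L = s + K * n :=
    ⟨L / K, L % K, Nat.mod_lt _ (by omega), (Nat.mod_add_div L K).symm⟩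
  have h1 : (Qx d m r w B M Y)^[s + K * n] (V M θ) x ≤ (1 / 2) ^ n * (b s * |(x : ℝ)| ^ θ) := by
    calc (Qx d m r w B M Y)^[s + K * n] (V M θ) x
        = (Qx d m r w B M Y)^[s] ((Qx d m r w B M Y)^[K * n] (V M θ)) x := by
          rw [Function.iterate_add_apply]
      _ ≤ (Qx d m r w B M Y)^[s] (fun y => (1 / 2) ^ n * V M θ y) x := Qi_mono hw0 _ (hblocks n) x
      _ = (1 / 2) ^ n * (Qx d m r w B M Y)^[s] (V M θ) x := Qi_smul _ _ _ _
      _ ≤ _ := mul_le_mul_of_nonneg_left (hwc s (by omega) x) (by positivity)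
  have h3 : (1 / 2 : ℝ) ^ n ≤ 2 * lam ^ (s + K * n) := by
    have h4 : lam ^ K ≤ lam ^ s := pow_le_pow_of_le_one hlam0.le hlam1.le hs.le
    rw [hlamK] at h4
    rw [pow_add, pow_mul, hlamK]
    have h5 : (0 : ℝ) < (1 / 2) ^ n := by positivity
    nlinarith
  have hxθ : 0 ≤ |(x : ℝ)| ^ θ := Real.rpow_nonneg (abs_nonneg _) _
  rw [hV]
  calc (Qx d m r w B M Y)^[s + K * n] (V M θ) x
      ≤ (1 / 2) ^ n * (b s * |(x : ℝ)| ^ θ) := h1
    _ ≤ (2 * lam ^ (s + K * n)) * (C0 * |(x : ℝ)| ^ θ) := by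
        refine mul_le_mul h3 ?_ ?_ (by positivity)
        · exact mul_le_mul_of_nonneg_right (hC0b s (by omega)) hxθ
        · exact mul_nonneg (hb0 s) hxθ
    _ = _ := by ring

end Pool.Agent.U864.DZ
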